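import Mathlib

/-!
# Acyclic list chromatic index versus acyclic chromatic index (MP_b17c1b_co)

We exhibit a simple graph (44 vertices, 62 edges, maximum degree 3) whose acyclic chromatic
index is 3 and whose acyclic list chromatic index is at least 4.

The graph is built from four copies of a gadget with 11 vertices and 14 edges.  In every acyclic
3-edge-colouring of the gadget the three vertices 8, 9, 10 (the ports) miss the same colour, so
three edges leaving the gadget at the ports must have equal colours as soon as their colours lie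
in the palette of the gadget.
-/

set_option autoImplicit false

namespace Pool.Agent.Results.MP_b17c1b_co.ListBeatsIndex

/-- A loopless multigraph: every edge has an unordered pair of distinct end vertices; parallel
edges are allowed. -/
structure Multigraph (V E : Type*) where
  ends : E → Sym2 V
  loopless : ∀ e, ¬ (ends e).IsDiag

namespace Multigraph

variable {V E C : Type*} (G : Multigraph V E)

/-- Adjacent edges get different colours. -/
def IsProper (c : E → C) : Prop :=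
  ∀ e f : E, e ≠ f → ∀ v : V, v ∈ G.ends e → v ∈ G.ends f → c e ≠ c f

/-- There is a cycle on `n ≥ 3` vertices whose edges use at most two colours. -/
def HasBichromaticCycle (c : E → C) : Prop :=
  ∃ (n : ℕ) (v : ZMod n → V) (e : ZMod n → E) (a b : C),
    3 ≤ n ∧ Function.Injective v ∧ (∀ i, G.ends (e i) = s(v i, v (i + 1))) ∧
    ∀ i, c (e i) = a ∨ c (e i) = b

/-- An acyclic edge colouring. -/
def IsAcyclicColouring (c : E → C) : Prop := G.IsProper c ∧ ¬ G.HasBichromaticCycle c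

/-- The acyclic chromatic index. -/
noncomputable def acyclicIndex : ℕ :=
  sInf {k : ℕ | ∃ c : E → Fin k, G.IsAcyclicColouring c}

/-- The acyclic list chromatic index. -/
noncomputable def acyclicListIndex : ℕ :=
  sInf {k : ℕ | ∀ L : E → Finset ℕ, (∀ e, (L e).card = k) →
    ∃ c : E → ℕ, G.IsAcyclicColouring c ∧ ∀ e, c e ∈ L e}

end Multigraph

open Multigraph

/-! ### General lemmas -/

section General

variable {V E C V' E' C' : Type*}

/-- Restriction of an acyclic colouring to a subgraph. -/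
theorem comap_acyclic (G : Multigraph V E) (H : Multigraph V' E') (ψ : V' → V) (φ : E' → E)
    (hψ : Function.Injective ψ) (hφ : Function.Injective φ)
    (hends : ∀ e, G.ends (φ e) = (H.ends e).map ψ) (c : E → C) (hc : G.IsAcyclicColouring c) :
    H.IsAcyclicColouring (c ∘ φ) := by
  refine ⟨?_, ?_⟩
  · intro e f hef v hv hv'
    refine hc.1 (φ e) (φ f) (fun h => hef (hφ h)) (ψ v) ?_ ?_
    · rw [hends]; exact Sym2.mem_map.2 ⟨v, hv, rfl⟩
    · rw [hends]; exact Sym2.mem_map.2 ⟨v, hv', rfl⟩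
  · rintro ⟨n, v, e, a, b, hn, hv, he, hab⟩
    refine hc.2 ⟨n, ψ ∘ v, φ ∘ e, a, b, hn, hψ.comp hv, ?_, hab⟩
    intro i
    simp only [Function.comp]
    rw [hends, he i, Sym2.map_mk]

/-- Renaming colours injectively. -/
theorem acyclic_of_comp (G : Multigraph V E) (p : C → C') (c : E → C)
    (hc : G.IsAcyclicColouring (p ∘ c)) : G.IsAcyclicColouring c := by
  refine ⟨?_, ?_⟩
  · intro e f hef v hv hv' h
    exact hc.1 e f hef v hv hv' (congrArg p h)
  · rintro ⟨n, v, e, a, b, hn, hv, he, hab⟩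
    refine hc.2 ⟨n, v, e, p a, p b, hn, hv, he, ?_⟩
    intro i
    rcases hab i with h | h
    · left; simp [h]
    · right; simp [h]

/-- A certificate for the absence of cycles whose edges satisfy `P`. -/
theorem no_cycle_of_height (G : Multigraph V E) (P : E → Prop) (h : V → ℕ)
    (cert : ∀ e f : E, e ≠ f → P e → P f → ∀ v u w : V, G.ends e = s(v, u) →
      G.ends f = s(v, w) → h u ≤ h v → h w ≤ h v → False)
    (n : ℕ) (hn : 3 ≤ n) (v : ZMod n → V) (e : ZMod n → E) (hv : Function.Injective v)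
    (he : ∀ i, G.ends (e i) = s(v i, v (i + 1))) (hP : ∀ i, P (e i)) : False := by
  have : NeZero n := ⟨by omega⟩
  obtain ⟨i, hi⟩ := Finite.exists_max (fun i => h (v i))
  have h1 : G.ends (e i) = s(v i, v (i + 1)) := he i
  have h2 : G.ends (e (i - 1)) = s(v i, v (i - 1)) := by
    have := he (i - 1)
    rw [sub_add_cancel] at this
    rw [this, Sym2.eq_swap]
  have hne : e i ≠ e (i - 1) := by
    intro hh
    rw [hh, h2, Sym2.eq_iff] at h1
    have key : v (i - 1) = v (i + 1) := by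
      rcases h1 with h1 | h1
      · exact h1.2
      · exact h1.2.trans h1.1
    have h3 : i - 1 = i + 1 := hv key
    have h4 : ((2 : ℕ) : ZMod n) = 0 := by
      have : (i + 1) - (i - 1) = 0 := by rw [h3]; simp
      have h5 : (i + 1) - (i - 1) = (2 : ZMod n) := by ring
      rw [h5] at this
      exact_mod_cast this
    rw [ZMod.natCast_eq_zero_iff] at h4
    have := Nat.le_of_dvd (by norm_num) h4
    omega
  exact cert (e i) (e (i - 1)) hne (hP _) (hP _) (v i) (v (i + 1)) (v (i - 1)) h1 h2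
    (hi _) (hi _)

/-- An injective colouring is acyclic. -/
theorem injective_acyclic (G : Multigraph V E) (c : E → C) (hc : Function.Injective c) :
    G.IsAcyclicColouring c := by
  refine ⟨fun e f hef v _ _ h => hef (hc h), ?_⟩
  rintro ⟨n, v, e, a, b, hn, hv, he, hab⟩
  have : NeZero n := ⟨by omega⟩
  have : Fact (1 < n) := ⟨by omega⟩
  -- the edges of the cycle are pairwise distinct
  have hinj : Function.Injective e := by
    intro i j hij
    have h1 := he i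
    rw [hij, he j, Sym2.eq_iff] at h1
    rcases h1 with h1 | h1
    · exact (hv h1.1).symm
    · exfalso
      have h2 : j = i + 1 := hv h1.1
      have h3 : j + 1 = i := hv h1.2
      have h4 : ((2 : ℕ) : ZMod n) = 0 := by
        have : (2 : ZMod n) = (j + 1) - i + ((i + 1) - j) := by ring
        rw [h3, ← h2] at this
        simpa using this
      rw [ZMod.natCast_eq_zero_iff] at h4
      have := Nat.le_of_dvd (by norm_num) h4
      omega
  have hcard : Fintype.card (ZMod n) ≤ 2 := by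
    classical
    have hsub : (Finset.univ.image (c ∘ e)) ⊆ ({a, b} : Finset C) := by
      intro x hx
      obtain ⟨i, -, rfl⟩ := Finset.mem_image.1 hx
      simpa using hab i
    have := Finset.card_le_card hsub
    rw [Finset.card_image_of_injective _ (hc.comp hinj), Finset.card_univ] at this
    exact this.trans Finset.card_le_two
  rw [ZMod.card] at hcard
  omega

end General

/-! ### The gadget -/

/-- First end of the edges of the gadget. -/
def gs : Fin 14 → Fin 11 := ![0, 0, 0, 1, 1, 1, 2, 2, 3, 3, 4, 4, 5, 5]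
/-- Second end of the edges of the gadget. -/
def gt : Fin 14 → Fin 11 := ![2, 3, 8, 4, 5, 8, 6, 9, 7, 9, 6, 10, 7, 10]

/-- The gadget: 11 vertices and 14 edges. -/
def H : Multigraph (Fin 11) (Fin 14) where
  ends i := s(gs i, gt i)
  loopless := by
    intro e
    rw [Sym2.mk_isDiag_iff]
    revert e
    decide

theorem H_proper (x : Fin 14 → Fin 3) (hx : H.IsProper x) (i j : Fin 14) (hij : i ≠ j)
    (h : gs i = gs j ∨ gs i = gt j ∨ gt i = gs j ∨ gt i = gt j) : x i ≠ x j := by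
  rcases h with h | h | h | h
  · exact hx i j hij (gs i) (Sym2.mem_mk_left _ _) (by rw [h]; exact Sym2.mem_mk_left _ _)
  · exact hx i j hij (gs i) (Sym2.mem_mk_left _ _) (by rw [h]; exact Sym2.mem_mk_right _ _)
  · exact hx i j hij (gt i) (Sym2.mem_mk_right _ _) (by rw [h]; exact Sym2.mem_mk_left _ _)
  · exact hx i j hij (gt i) (Sym2.mem_mk_right _ _) (by rw [h]; exact Sym2.mem_mk_right _ _)

/-- Cycles of the gadget, as a list of vertices and a list of edges. -/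
theorem H_cycle {m : ℕ} (x : Fin 14 → Fin 3) (hx : ¬ H.HasBichromaticCycle x)
    (v : Fin (m + 3) → Fin 11) (e : Fin (m + 3) → Fin 14) (hv : Function.Injective v)
    (he : ∀ i, s(gs (e i), gt (e i)) = s(v i, v (i + 1))) (a b : Fin 3) :
    ¬ ∀ i, x (e i) = a ∨ x (e i) = b := by
  intro h
  exact hx ⟨m + 3, v, e, a, b, by omega, hv, he, h⟩

set_option synthInstance.maxSize 100000 in
set_option maxRecDepth 100000 in
theorem gadget_decide :
    ∀ x2 x0 : Fin 3, x0 ≠ x2 → ∀ x1 : Fin 3, x1 ≠ x2 → x1 ≠ x0 →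
    ∀ x7 : Fin 3, x7 ≠ x0 → ∀ x9 : Fin 3, x9 ≠ x1 → x9 ≠ x7 →
    ¬ (x0 = x9 ∧ x7 = x1) →
    ∀ x6 : Fin 3, x6 ≠ x0 → x6 ≠ x7 → ∀ x8 : Fin 3, x8 ≠ x1 → x8 ≠ x9 →
    ∀ x5 : Fin 3, x5 ≠ x2 → ∀ x3 : Fin 3, x3 ≠ x5 → ∀ x4 : Fin 3, x4 ≠ x5 → x4 ≠ x3 →
    ∀ x11 : Fin 3, x11 ≠ x3 → ∀ x13 : Fin 3, x13 ≠ x4 → x13 ≠ x11 →
    ¬ (x3 = x13 ∧ x11 = x4) →
    ∀ x10 : Fin 3, x10 ≠ x3 → x10 ≠ x11 → x10 ≠ x6 →
    ¬ (x0 = x10 ∧ x0 = x5 ∧ x6 = x3 ∧ x6 = x2) →
    ¬ (x0 = x10 ∧ x0 = x13 ∧ x0 = x5 ∧ x6 = x11 ∧ x6 = x4 ∧ x6 = x2) →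
    ¬ (x1 = x7 ∧ x1 = x10 ∧ x1 = x5 ∧ x9 = x6 ∧ x9 = x3 ∧ x9 = x2) →
    ∀ x12 : Fin 3, x12 ≠ x4 → x12 ≠ x13 → x12 ≠ x8 →
    ¬ (x1 = x12 ∧ x1 = x11 ∧ x1 = x5 ∧ x8 = x13 ∧ x8 = x3 ∧ x8 = x2) →
    ¬ (x0 = x9 ∧ x0 = x12 ∧ x0 = x5 ∧ x7 = x8 ∧ x7 = x4 ∧ x7 = x2) →
    ¬ (x1 = x12 ∧ x1 = x5 ∧ x8 = x4 ∧ x8 = x2) →
    ∀ z8 : Fin 3, z8 ≠ x2 → z8 ≠ x5 → ∀ z9 : Fin 3, z9 ≠ x7 → z9 ≠ x9 →
    ∀ z10 : Fin 3, z10 ≠ x11 → z10 ≠ x13 → z8 = z9 ∧ z9 = z10 := by
  decide +kernel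


/-- In every acyclic 3-edge-colouring of the gadget the ports 8, 9 and 10 miss the same
colour `m`. -/
theorem gadget_key (x : Fin 14 → Fin 3) (hx : H.IsAcyclicColouring x) :
    ∃ m : Fin 3, (∀ z, z ≠ x 2 → z ≠ x 5 → z = m) ∧ (∀ z, z ≠ x 7 → z ≠ x 9 → z = m) ∧
      (∀ z, z ≠ x 11 → z ≠ x 13 → z = m) := by
  have P := H_proper x hx.1
  have free : ∀ a b : Fin 3, ∃ z : Fin 3, z ≠ a ∧ z ≠ b := by decide
  have C1 : ¬ (x 0 = x 9 ∧ x 7 = x 1) := by
    rintro ⟨h1, h2⟩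
    refine H_cycle (m := 1) x hx.2 ![0, 2, 9, 3] ![0, 7, 9, 1] (by decide) (by decide)
      (x 0) (x 1) ?_
    intro i
    fin_cases i <;> simp [h1, h2]
  have C2 : ¬ (x 3 = x 13 ∧ x 11 = x 4) := by
    rintro ⟨h1, h2⟩
    refine H_cycle (m := 1) x hx.2 ![1, 4, 10, 5] ![3, 11, 13, 4] (by decide) (by decide)
      (x 3) (x 4) ?_
    intro i
    fin_cases i <;> simp [h1, h2]
  have C3 : ¬ (x 0 = x 10 ∧ x 0 = x 5 ∧ x 6 = x 3 ∧ x 6 = x 2) := by
    rintro ⟨h1, h2, h3, h4⟩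
    refine H_cycle (m := 3) x hx.2 ![0, 2, 6, 4, 1, 8] ![0, 6, 10, 3, 5, 2] (by decide)
      (by decide) (x 0) (x 6) ?_
    intro i
    fin_cases i <;> simp [← h1, ← h2, ← h3, ← h4]
  have C4 : ¬ (x 0 = x 10 ∧ x 0 = x 13 ∧ x 0 = x 5 ∧ x 6 = x 11 ∧ x 6 = x 4 ∧ x 6 = x 2) := by
    rintro ⟨h1, h2, h3, h4, h5, h6⟩
    refine H_cycle (m := 5) x hx.2 ![0, 2, 6, 4, 10, 5, 1, 8] ![0, 6, 10, 11, 13, 4, 5, 2]
      (by decide) (by decide) (x 0) (x 6) ?_
    intro i
    fin_cases i <;> simp [← h1, ← h2, ← h3, ← h4, ← h5, ← h6]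
  have C5 : ¬ (x 1 = x 7 ∧ x 1 = x 10 ∧ x 1 = x 5 ∧ x 9 = x 6 ∧ x 9 = x 3 ∧ x 9 = x 2) := by
    rintro ⟨h1, h2, h3, h4, h5, h6⟩
    refine H_cycle (m := 5) x hx.2 ![0, 3, 9, 2, 6, 4, 1, 8] ![1, 9, 7, 6, 10, 3, 5, 2]
      (by decide) (by decide) (x 1) (x 9) ?_
    intro i
    fin_cases i <;> simp [← h1, ← h2, ← h3, ← h4, ← h5, ← h6]
  have C6 : ¬ (x 1 = x 12 ∧ x 1 = x 11 ∧ x 1 = x 5 ∧ x 8 = x 13 ∧ x 8 = x 3 ∧ x 8 = x 2) := by
    rintro ⟨h1, h2, h3, h4, h5, h6⟩
    refine H_cycle (m := 5) x hx.2 ![0, 3, 7, 5, 10, 4, 1, 8] ![1, 8, 12, 13, 11, 3, 5, 2]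
      (by decide) (by decide) (x 1) (x 8) ?_
    intro i
    fin_cases i <;> simp [← h1, ← h2, ← h3, ← h4, ← h5, ← h6]
  have C7 : ¬ (x 0 = x 9 ∧ x 0 = x 12 ∧ x 0 = x 5 ∧ x 7 = x 8 ∧ x 7 = x 4 ∧ x 7 = x 2) := by
    rintro ⟨h1, h2, h3, h4, h5, h6⟩
    refine H_cycle (m := 5) x hx.2 ![0, 2, 9, 3, 7, 5, 1, 8] ![0, 7, 9, 8, 12, 4, 5, 2]
      (by decide) (by decide) (x 0) (x 7) ?_
    intro i
    fin_cases i <;> simp [← h1, ← h2, ← h3, ← h4, ← h5, ← h6]
  have C8 : ¬ (x 1 = x 12 ∧ x 1 = x 5 ∧ x 8 = x 4 ∧ x 8 = x 2) := by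
    rintro ⟨h1, h2, h3, h4⟩
    refine H_cycle (m := 3) x hx.2 ![0, 3, 7, 5, 1, 8] ![1, 8, 12, 4, 5, 2] (by decide)
      (by decide) (x 1) (x 8) ?_
    intro i
    fin_cases i <;> simp [← h1, ← h2, ← h3, ← h4]
  have main := gadget_decide (x 2) (x 0) (P 0 2 (by decide) (by decide))
    (x 1) (P 1 2 (by decide) (by decide)) (P 1 0 (by decide) (by decide))
    (x 7) (P 7 0 (by decide) (by decide))
    (x 9) (P 9 1 (by decide) (by decide)) (P 9 7 (by decide) (by decide)) C1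
    (x 6) (P 6 0 (by decide) (by decide)) (P 6 7 (by decide) (by decide))
    (x 8) (P 8 1 (by decide) (by decide)) (P 8 9 (by decide) (by decide))
    (x 5) (P 5 2 (by decide) (by decide))
    (x 3) (P 3 5 (by decide) (by decide))
    (x 4) (P 4 5 (by decide) (by decide)) (P 4 3 (by decide) (by decide))
    (x 11) (P 11 3 (by decide) (by decide))
    (x 13) (P 13 4 (by decide) (by decide)) (P 13 11 (by decide) (by decide)) C2
    (x 10) (P 10 3 (by decide) (by decide)) (P 10 11 (by decide) (by decide))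
    (P 10 6 (by decide) (by decide)) C3 C4 C5
    (x 12) (P 12 4 (by decide) (by decide)) (P 12 13 (by decide) (by decide))
    (P 12 8 (by decide) (by decide)) C6 C7 C8
  obtain ⟨m8, h8, h8'⟩ := free (x 2) (x 5)
  obtain ⟨m9, h9, h9'⟩ := free (x 7) (x 9)
  obtain ⟨m10, h10, h10'⟩ := free (x 11) (x 13)
  have e1 := main m8 h8 h8' m9 h9 h9' m10 h10 h10'
  refine ⟨m9, ?_, ?_, ?_⟩
  · intro z hz hz'
    exact (main z hz hz' m9 h9 h9' m10 h10 h10').1
  · intro z hz hz'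
    have := (main m8 h8 h8' z hz hz' m10 h10 h10').2
    rw [this, e1.2]
  · intro z hz hz'
    exact (main m8 h8 h8' m9 h9 h9' z hz hz').2.symm

/-! ### The graph -/

/-- First ends of the six connecting edges. -/
def vs : Fin 6 → Fin 4 × Fin 11 := ![(1, 8), (2, 9), (1, 9), (3, 8), (3, 9), (3, 10)]
/-- Second ends of the six connecting edges. -/
def vt : Fin 6 → Fin 4 × Fin 11 := ![(2, 8), (0, 8), (2, 10), (0, 9), (0, 10), (1, 10)]

/-- Vertices of the graph. -/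
abbrev VV := Fin 4 × Fin 11
/-- Edges of the graph: the edges of four gadgets and six connecting edges. -/
abbrev EE := Fin 4 × Fin 14 ⊕ Fin 6

/-- First end of an edge. -/
def es : EE → VV
  | .inl (g, i) => (g, gs i)
  | .inr j => vs j
/-- Second end of an edge. -/
def et : EE → VV
  | .inl (g, i) => (g, gt i)
  | .inr j => vt j

/-- The graph: four gadgets joined by six edges. -/
def G : Multigraph VV EE where
  ends e := s(es e, et e)
  loopless := by
    intro e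
    rw [Sym2.mk_isDiag_iff]
    revert e
    decide +kernel

/-- The palettes of the gadgets. -/
def pal : Fin 4 → Fin 3 → ℕ := ![![2, 3, 4], ![2, 3, 5], ![1, 2, 3], ![1, 3, 4]]

/-- The lists. -/
def L : EE → Finset ℕ
  | .inl (g, _) => Finset.univ.image (pal g)
  | .inr j => (![{1, 2, 3}, {2, 3, 4}, {1, 3, 5}, {1, 2, 3}, {2, 3, 4}, {1, 2, 4}] :
      Fin 6 → Finset ℕ) j

theorem L_card : ∀ e, (L e).card = 3 := by
  decide +kernel

/-- The connecting edges at the ports of the gadgets. -/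
def pe : Fin 4 → Fin 3 → Fin 6 := ![![1, 3, 4], ![0, 2, 5], ![0, 1, 2], ![3, 4, 5]]

theorem ne_of_share (c : EE → ℕ) (hc : G.IsProper c) (e f : EE) (hef : e ≠ f)
    (h : es e = es f ∨ es e = et f ∨ et e = es f ∨ et e = et f) : c e ≠ c f := by
  rcases h with h | h | h | h
  · exact hc e f hef (es e) (Sym2.mem_mk_left _ _)
      (by rw [h]; exact Sym2.mem_mk_left _ _)
  · exact hc e f hef (es e) (Sym2.mem_mk_left _ _)
      (by rw [h]; exact Sym2.mem_mk_right _ _)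
  · exact hc e f hef (et e) (Sym2.mem_mk_right _ _)
      (by rw [h]; exact Sym2.mem_mk_left _ _)
  · exact hc e f hef (et e) (Sym2.mem_mk_right _ _)
      (by rw [h]; exact Sym2.mem_mk_right _ _)

theorem gadget_in_G (c : EE → ℕ) (hc : G.IsAcyclicColouring c) (hL : ∀ e, c e ∈ L e)
    (g : Fin 4) : ∃ m : ℕ, ∀ k : Fin 3, c (.inr (pe g k)) ∈ Finset.univ.image (pal g) →
      c (.inr (pe g k)) = m := by
  have h1 : ∀ i : Fin 14, ∃ y : Fin 3, pal g y = c (.inl (g, i)) := by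
    intro i
    have := hL (.inl (g, i))
    simpa [L] using this
  choose x hx using h1
  have h2 : H.IsAcyclicColouring (c ∘ fun i => (Sum.inl (g, i) : EE)) := by
    refine comap_acyclic G H (fun v => (g, v)) _ ?_ ?_ ?_ c hc
    · intro a b hab; exact (Prod.mk.inj hab).2
    · intro a b hab; exact (Prod.mk.inj (Sum.inl_injective hab)).2
    · intro e; rfl
  have h3 : (c ∘ fun i => (Sum.inl (g, i) : EE)) = pal g ∘ x := by
    funext i; simp [hx]
  rw [h3] at h2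
  obtain ⟨m, m8, m9, m10⟩ := gadget_key x (acyclic_of_comp H _ x h2)
  refine ⟨pal g m, ?_⟩
  have key : ∀ (k : Fin 3) (i : Fin 14), es (.inr (pe g k)) = es (.inl (g, i)) ∨
      es (.inr (pe g k)) = et (.inl (g, i)) ∨ et (.inr (pe g k)) = es (.inl (g, i)) ∨
      et (.inr (pe g k)) = et (.inl (g, i)) → c (.inr (pe g k)) ≠ pal g (x i) := by
    intro k i h
    rw [hx]
    exact ne_of_share c hc.1 _ _ (by simp) h
  have inc : ∀ (g : Fin 4) (k : Fin 3) (i : Fin 14),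
      (k = 0 ∧ (i = 2 ∨ i = 5)) ∨ (k = 1 ∧ (i = 7 ∨ i = 9)) ∨ (k = 2 ∧ (i = 11 ∨ i = 13)) →
      es (.inr (pe g k)) = es (.inl (g, i)) ∨
      es (.inr (pe g k)) = et (.inl (g, i)) ∨ et (.inr (pe g k)) = es (.inl (g, i)) ∨
      et (.inr (pe g k)) = et (.inl (g, i)) := by
    decide +kernel
  intro k hk
  obtain ⟨z, -, hz⟩ := Finset.mem_image.1 hk
  have hne : ∀ i, (k = 0 ∧ (i = 2 ∨ i = 5)) ∨ (k = 1 ∧ (i = 7 ∨ i = 9)) ∨
      (k = 2 ∧ (i = 11 ∨ i = 13)) → z ≠ x i := by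
    intro i hi h
    exact key k i (inc g k i hi) (by rw [← hz, h])
  rw [← hz]
  congr 1
  have hk3 : ∀ k : Fin 3, k = 0 ∨ k = 1 ∨ k = 2 := by decide
  rcases hk3 k with h | h | h
  · exact m8 z (hne 2 (by simp [h])) (hne 5 (by simp [h]))
  · exact m9 z (hne 7 (by simp [h])) (hne 9 (by simp [h]))
  · exact m10 z (hne 11 (by simp [h])) (hne 13 (by simp [h]))

/-- The lists admit no acyclic colouring. -/
theorem no_list_colouring : ¬ ∃ c : EE → ℕ, G.IsAcyclicColouring c ∧ ∀ e, c e ∈ L e := by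
  rintro ⟨c, hc, hL⟩
  have pair : ∀ (g : Fin 4) (k l : Fin 3), c (.inr (pe g k)) ∈ Finset.univ.image (pal g) →
      c (.inr (pe g l)) ∈ Finset.univ.image (pal g) →
      c (.inr (pe g k)) = c (.inr (pe g l)) := by
    intro g k l hk hl
    obtain ⟨m, hm⟩ := gadget_in_G c hc hL g
    rw [hm k hk, hm l hl]
  have csp : ∀ y0 ∈ ({1, 2, 3} : Finset ℕ), ∀ y1 ∈ ({2, 3, 4} : Finset ℕ),
      ∀ y2 ∈ ({1, 3, 5} : Finset ℕ), ∀ y3 ∈ ({1, 2, 3} : Finset ℕ),
      ∀ y4 ∈ ({2, 3, 4} : Finset ℕ), ∀ y5 ∈ ({1, 2, 4} : Finset ℕ),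
      ¬ (∀ (g : Fin 4) (k l : Fin 3),
        (![y0, y1, y2, y3, y4, y5] : Fin 6 → ℕ) (pe g k) ∈ Finset.univ.image (pal g) →
        (![y0, y1, y2, y3, y4, y5] : Fin 6 → ℕ) (pe g l) ∈ Finset.univ.image (pal g) →
        (![y0, y1, y2, y3, y4, y5] : Fin 6 → ℕ) (pe g k) =
          (![y0, y1, y2, y3, y4, y5] : Fin 6 → ℕ) (pe g l)) := by
    decide +kernel
  refine csp (c (.inr 0)) (hL (.inr 0)) (c (.inr 1)) (hL (.inr 1)) (c (.inr 2))
    (hL (.inr 2)) (c (.inr 3)) (hL (.inr 3)) (c (.inr 4)) (hL (.inr 4)) (c (.inr 5))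
    (hL (.inr 5)) ?_
  have hfun : (![c (.inr 0), c (.inr 1), c (.inr 2), c (.inr 3), c (.inr 4), c (.inr 5)] :
      Fin 6 → ℕ) = fun j => c (.inr j) := by
    funext j
    fin_cases j <;> rfl
  rw [hfun]
  exact pair

/-! ### The acyclic colouring with three colours -/

/-- Colours of the edges inside a gadget. -/
def c1 : Fin 14 → Fin 3 := ![0, 1, 2, 2, 0, 1, 2, 1, 0, 2, 0, 1, 1, 2]

/-- The acyclic colouring with three colours. -/
def c0 : EE → Fin 3
  | .inl (_, i) => c1 i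
  | .inr _ => 0

/-- Positions on the paths formed by the edges whose colour is not `t`. -/
def ht : Fin 3 → Fin 4 → Fin 11 → ℕ := ![
  ![![6, 4, 9, 7, 3, 1, 10, 0, 5, 8, 2], ![6, 4, 9, 7, 3, 1, 10, 0, 5, 8, 2],
    ![6, 4, 9, 7, 3, 1, 10, 0, 5, 8, 2], ![6, 4, 9, 7, 3, 1, 10, 0, 5, 8, 2]],
  ![![4, 8, 5, 1, 7, 9, 6, 0, 3, 2, 10], ![17, 13, 16, 28, 14, 12, 15, 29, 18, 27, 11],
    ![20, 24, 21, 1, 23, 25, 22, 0, 19, 2, 26], ![4, 8, 5, 12, 7, 9, 6, 13, 3, 11, 10]],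
  ![![24, 20, 25, 23, 36, 21, 37, 22, 19, 26, 35], ![5, 9, 4, 6, 1, 8, 0, 7, 10, 3, 2],
    ![16, 12, 17, 15, 1, 13, 0, 14, 11, 18, 2], ![32, 28, 33, 31, 4, 29, 5, 30, 27, 34, 3]]]

/-- `ht` as a function of a vertex. -/
def hh (t : Fin 3) (v : VV) : ℕ := ht t v.1 v.2

theorem c0_proper_check : ∀ e f : EE, e ≠ f →
    (es e = es f ∨ es e = et f ∨ et e = es f ∨ et e = et f) → c0 e ≠ c0 f := by
  decide +kernel

set_option synthInstance.maxSize 100000 in
theorem c0_height_check : ∀ e f : EE, e ≠ f → ∀ t : Fin 3, c0 e ≠ t → c0 f ≠ t →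
    ¬ (es e = es f ∧ hh t (et e) ≤ hh t (es e) ∧ hh t (et f) ≤ hh t (es e)) ∧
    ¬ (es e = et f ∧ hh t (et e) ≤ hh t (es e) ∧ hh t (es f) ≤ hh t (es e)) ∧
    ¬ (et e = es f ∧ hh t (es e) ≤ hh t (et e) ∧ hh t (et f) ≤ hh t (et e)) ∧
    ¬ (et e = et f ∧ hh t (es e) ≤ hh t (et e) ∧ hh t (es f) ≤ hh t (et e)) := by
  decide +kernel


theorem share_of_mem (v : VV) (e f : EE) (hv : v ∈ G.ends e) (hv' : v ∈ G.ends f) :
    es e = es f ∨ es e = et f ∨ et e = es f ∨ et e = et f := by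
  have h1 : v = es e ∨ v = et e := Sym2.mem_iff.1 hv
  have h2 : v = es f ∨ v = et f := Sym2.mem_iff.1 hv'
  rcases h1 with h1 | h1 <;> rcases h2 with h2 | h2
  · exact Or.inl (h1.symm.trans h2)
  · exact Or.inr (Or.inl (h1.symm.trans h2))
  · exact Or.inr (Or.inr (Or.inl (h1.symm.trans h2)))
  · exact Or.inr (Or.inr (Or.inr (h1.symm.trans h2)))

theorem c0_acyclic : G.IsAcyclicColouring c0 := by
  refine ⟨?_, ?_⟩
  · intro e f hef v hv hv'
    exact c0_proper_check e f hef (share_of_mem v e f hv hv')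
  · rintro ⟨n, v, e, a, b, hn, hv, he, hab⟩
    have third : ∀ a b : Fin 3, ∃ t : Fin 3, t ≠ a ∧ t ≠ b := by decide
    obtain ⟨t, hta, htb⟩ := third a b
    refine no_cycle_of_height G (fun e => c0 e ≠ t) (hh t) ?_ n hn v e hv he ?_
    · intro e f hef hPe hPf v u w hu hw huv hwv
      have h1 : s(es e, et e) = s(v, u) := hu
      have h2 : s(es f, et f) = s(v, w) := hw
      rw [Sym2.eq_iff] at h1 h2
      have chk := c0_height_check e f hef t hPe hPf
      rcases h1 with ⟨h1, h1'⟩ | ⟨h1, h1'⟩ <;> rcases h2 with ⟨h2, h2'⟩ | ⟨h2, h2'⟩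
      · exact chk.1 ⟨by rw [h1, h2], by rw [h1, h1']; exact huv, by rw [h1, h2']; exact hwv⟩
      · exact chk.2.1 ⟨by rw [h1, h2'], by rw [h1, h1']; exact huv,
          by rw [h1, h2]; exact hwv⟩
      · exact chk.2.2.1 ⟨by rw [h1', h2], by rw [h1, h1']; exact huv,
          by rw [h1', h2']; exact hwv⟩
      · exact chk.2.2.2 ⟨by rw [h1', h2'], by rw [h1, h1']; exact huv,
          by rw [h1', h2]; exact hwv⟩
    · intro i h
      rcases hab i with h' | h'
      · exact hta (h.symm.trans h')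
      · exact htb (h.symm.trans h')

/-! ### The result -/

theorem acyclicIndex_G : G.acyclicIndex = 3 := by
  have hmem : (3 : ℕ) ∈ {k : ℕ | ∃ c : EE → Fin k, G.IsAcyclicColouring c} := ⟨c0, c0_acyclic⟩
  refine le_antisymm (Nat.sInf_le hmem) (le_csInf ⟨3, hmem⟩ ?_)
  rintro k ⟨c, hc⟩
  by_contra hk
  push Not at hk
  have hne : ∀ i j : Fin 3, i ≠ j →
      c (.inl (0, (![0, 1, 2] : Fin 3 → Fin 14) i)) ≠
        c (.inl (0, (![0, 1, 2] : Fin 3 → Fin 14) j)) := by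
    intro i j hij
    refine hc.1 _ _ ?_ ((0 : Fin 4), (0 : Fin 11)) ?_ ?_
    · revert i j; decide
    · have : ∀ i : Fin 3, ((0 : Fin 4), (0 : Fin 11)) =
          es (.inl (0, (![0, 1, 2] : Fin 3 → Fin 14) i)) := by decide
      rw [this i]; exact Sym2.mem_mk_left _ _
    · have : ∀ i : Fin 3, ((0 : Fin 4), (0 : Fin 11)) =
          es (.inl (0, (![0, 1, 2] : Fin 3 → Fin 14) i)) := by decide
      rw [this j]; exact Sym2.mem_mk_left _ _
  have hinj : Function.Injective fun i : Fin 3 =>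
      c (.inl (0, (![0, 1, 2] : Fin 3 → Fin 14) i)) := by
    intro i j hij
    by_contra h
    exact hne i j h hij
  have := Fintype.card_le_of_injective _ hinj
  simp at this
  omega

theorem acyclicListIndex_G : 4 ≤ G.acyclicListIndex := by
  have hne : {k : ℕ | ∀ L : EE → Finset ℕ, (∀ e, (L e).card = k) →
      ∃ c : EE → ℕ, G.IsAcyclicColouring c ∧ ∀ e, c e ∈ L e}.Nonempty := by
    refine ⟨Fintype.card EE, ?_⟩
    intro M hM
    obtain ⟨f, hf, hf'⟩ := (Finset.all_card_le_biUnion_card_iff_exists_injective M).1 (by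
      intro s
      rcases s.eq_empty_or_nonempty with rfl | ⟨e, he⟩
      · simp
      · calc s.card ≤ Fintype.card EE := Finset.card_le_univ s
          _ = (M e).card := (hM e).symm
          _ ≤ (s.biUnion M).card := Finset.card_le_card (Finset.subset_biUnion_of_mem M he))
    exact ⟨f, injective_acyclic G f hf, hf'⟩
  refine le_csInf hne ?_
  intro k hk
  by_contra hlt
  push Not at hlt
  have hsub : ∀ e : EE, ∃ M : Finset ℕ, M ⊆ L e ∧ M.card = k := by
    intro e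
    exact Finset.exists_subset_card_eq (by rw [L_card e]; omega)
  choose M hM hM' using hsub
  obtain ⟨c, hc, hcM⟩ := hk M hM'
  exact no_list_colouring ⟨c, hc, fun e => hM e (hcM e)⟩

theorem G_simple : Function.Injective G.ends := by
  have key : ∀ e f : EE, (es e = es f ∧ et e = et f) ∨ (es e = et f ∧ et e = es f) →
      e = f := by
    decide +kernel
  intro e f h
  exact key e f (Sym2.eq_iff.1 h)

/-- There is a simple graph with acyclic chromatic index 3 whose acyclic list chromatic index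
is at least 4. -/
theorem result :
    ∃ G : Multigraph (Fin 4 × Fin 11) (Fin 4 × Fin 14 ⊕ Fin 6),
      Function.Injective G.ends ∧ G.acyclicIndex = 3 ∧ 4 ≤ G.acyclicListIndex :=
  ⟨G, G_simple, acyclicIndex_G, acyclicListIndex_G⟩

end Pool.Agent.Results.MP_b17c1b_co.ListBeatsIndex
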